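import Mathlib
import Pool.Agent.H24.AssocNil

set_option autoImplicit false
open Pool.Agent.H24.Alg

namespace Pool.Agent.Results.MP_00fd70_lc.PerfectRegular

universe u v w

theorem result (P : Type u) [Field P] (n : ℕ) (hn : 2 ≤ n) (r : ℕ)
    (W : Type v) [NonUnitalRing W] [Module P W] [IsScalarTower P W W] [SMulCommClass P W W]
    (x : Fin r → W) (hW : NilIndex n W)
    (hfree : ∀ (B : Type v) [NonUnitalRing B] [Module P B] [IsScalarTower P B B]
      [SMulCommClass P B B], NilIndex n B → ∀ y : Fin r → B,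
      ∃! φ : W →ₙₐ[P] B, ∀ i, φ (x i) = y i) :
    (∀ (k : ℕ) (a b : Fin k → W), TypeEq P (· * ·) (· * ·) a b ↔
      ∃ σ : W ≃ₗ[P] W, (∀ p q, σ (p * q) = σ p * σ q) ∧ ∀ i, σ (a i) = b i) ∧
    (∀ (H : Type w) [NonUnitalRing H] [Module P H] [IsScalarTower P H H] [SMulCommClass P H H],
      NilIndex n H → Isotyp P (fun p q : W => p * q) (fun p q : H => p * q) →
      ∃ e : W ≃ₗ[P] H, ∀ p q, e (p * q) = e p * e q) := by
  have h1 := pw_of_nil (K := P) (by omega : 1 ≤ n) hW
  have h2 := gen_of_free x (fun S y => (hfree S (nil_sub hW S) y).exists) (hfree W hW x)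
  have h3 := ext_of_free x fun y => (hfree W hW y).exists
  refine ⟨fun k a b => ⟨homog (LinearMap.mul P W) assoc_H h1 x h2 h3 a b, ?_⟩, ?_⟩
  · rintro ⟨σ, h4, h5⟩
    exact typeEq_of_equiv _ _ σ h4 a b h5
  · intro H _ _ _ _ _ hiso
    exact separ (LinearMap.mul P W) assoc_H h1 x h2 h3 _ hiso

end Pool.Agent.Results.MP_00fd70_lc.PerfectRegular
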